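import Pool.Agent.W558.Atlas

set_option autoImplicit false

open AlgebraicGeometry CategoryTheory

universe u

namespace Pool.Agent.W558

/-- The `k`-scheme `X`, with structure morphism `f`, is a variety (an integral scheme, separated
and of finite type over `k`) and has a resolution of singularities: there are an integral scheme
`Y`, smooth over `k`, and a proper morphism `Y ⟶ X` which is an isomorphism over a dense open
subset of `X`. -/
def IsResolvableVariety {k : Type u} [Field k] {X : Scheme.{u}}
    (f : X ⟶ Spec (CommRingCat.of k)) : Prop :=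
  (AlgebraicGeometry.IsIntegral X ∧ AlgebraicGeometry.IsSeparated f ∧
    AlgebraicGeometry.LocallyOfFiniteType f ∧ AlgebraicGeometry.QuasiCompact f) ∧
  ∃ (Y : Scheme.{u}) (π : Y ⟶ X), AlgebraicGeometry.IsIntegral Y ∧
    AlgebraicGeometry.IsProper π ∧ AlgebraicGeometry.Smooth (π ≫ f) ∧
    ∃ U : X.Opens, Dense (U : Set X) ∧ IsIso (π ∣_ U)

lemma isResolvableVariety_spec {k A : Type u} [Field k] [CommRing A] [IsDomain A] [Algebra k A]
    [Algebra.FiniteType k A]
    (h : Pool.Agent.H920R2.HasResolution (X := Spec (CommRingCat.of A))
      (Spec.map (CommRingCat.ofHom (algebraMap k A)))) :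
    IsResolvableVariety (X := Spec (CommRingCat.of A))
      (Spec.map (CommRingCat.ofHom (algebraMap k A))) := by
  refine ⟨⟨?_, ?_, ?_, ?_⟩, h⟩
  · infer_instance
  · infer_instance
  · rw [HasRingHomProperty.Spec_iff (P := @LocallyOfFiniteType)]
    exact RingHom.finiteType_algebraMap.2 inferInstance
  · infer_instance

end Pool.Agent.W558
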