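import Pool.Agent.W558.Princ

set_option autoImplicit false
set_option linter.unusedVariables false
set_option linter.unusedSimpArgs false
set_option linter.unusedSectionVars false

universe u v

open Polynomial

namespace Pool.Agent.W558

section tv

variable {k K : Type u} [Field k] [Field K] [Algebra k K]

/-- The tangent vector induced by a derivation. -/
def TV.ofDer {A : Subalgebra k K} (D : Derivation k K K) (h : ∀ f ∈ A, D f ∈ A) {κ : Type u}
    [Field κ] [Algebra k κ] (φ : A →ₐ[k] κ) : TV φ where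
  D := { toFun := fun a => φ ⟨D a, h a a.2⟩
         map_add' := by
          intro a b
          rw [← map_add]
          congr 1
          apply Subtype.ext
          change D ((a : K) + b) = D a + D b
          rw [map_add]
         map_smul' := by
          intro r a
          rw [RingHom.id_apply, ← map_smul]
          congr 1
          apply Subtype.ext
          change D (r • (a : K)) = r • D a
          rw [Derivation.map_smul] }
  leib := by
    intro a b
    change φ ⟨D ((a : K) * b), _⟩ = φ a * φ ⟨D b, _⟩ + φ b * φ ⟨D a, _⟩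
    rw [← map_mul, ← map_mul, ← map_add]
    congr 1
    apply Subtype.ext
    change D ((a : K) * b) = a * D b + b * D a
    rw [Derivation.leibniz]
    rfl

lemma TV.ofDer_D {A : Subalgebra k K} (D : Derivation k K K) (h : ∀ f ∈ A, D f ∈ A) {κ : Type u}
    [Field κ] [Algebra k κ] (φ : A →ₐ[k] κ) (a : K) (ha : a ∈ A) :
    (TV.ofDer D h φ).D ⟨a, ha⟩ = φ ⟨D a, h a ha⟩ := rfl

/-- Adding a function to a divisor. -/
theorem SNC.add {A : Subalgebra k K} {I : Type} {x : I → K} (hS : SNC A x) {y : K} (hy : y ∈ A)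
    (h : ∀ (κ : Type u) [Field κ] [Algebra k κ] (φ : A →ₐ[k] κ), φ ⟨y, hy⟩ = 0 →
      ∃ δ : TV φ, δ.D ⟨y, hy⟩ ≠ 0 ∧ ∀ (l : I) (hl : x l ∈ A), φ ⟨x l, hl⟩ = 0 →
        δ.D ⟨x l, hl⟩ = 0) : SNC A (fun o : Option I => o.elim y x) := by
  intro κ _ _ φ o ho hφ
  cases o with
  | none =>
    obtain ⟨δ, h1, h2⟩ := h κ φ hφ
    refine ⟨TV.comb (δ.D ⟨y, hy⟩)⁻¹ 0 δ δ, ?_, ?_⟩
    · refine (TV.comb_D _ _ _ _ _).trans ?_
      exact (by rw [inv_mul_cancel₀ h1, zero_mul, add_zero] :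
        (δ.D ⟨y, hy⟩)⁻¹ * δ.D ⟨y, hy⟩ + 0 * δ.D ⟨y, hy⟩ = 1)
    · rintro (_ | l) hl hne hφl
      · exact absurd rfl hne
      · refine (TV.comb_D _ _ _ _ _).trans ?_
        have e : δ.D ⟨x l, hl⟩ = 0 := h2 l hl hφl
        exact (by rw [e]; ring :
          (δ.D ⟨y, hy⟩)⁻¹ * δ.D ⟨x l, hl⟩ + 0 * δ.D ⟨x l, hl⟩ = 0)
  | some i =>
    obtain ⟨D, hD, hD'⟩ := hS κ φ i ho hφ
    by_cases hφy : φ ⟨y, hy⟩ = 0
    · obtain ⟨δ, h1, h2⟩ := h κ φ hφy
      refine ⟨TV.comb 1 (-(D.D ⟨y, hy⟩ * (δ.D ⟨y, hy⟩)⁻¹)) D δ, ?_, ?_⟩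
      · refine (TV.comb_D _ _ _ _ _).trans ?_
        have e : δ.D ⟨x i, ho⟩ = 0 := h2 i ho hφ
        exact (by rw [hD, e]; ring :
          1 * D.D ⟨x i, ho⟩ + -(D.D ⟨y, hy⟩ * (δ.D ⟨y, hy⟩)⁻¹) * δ.D ⟨x i, ho⟩ = 1)
      · rintro (_ | l) hl hne hφl
        · refine (TV.comb_D _ _ _ _ _).trans ?_
          exact (by field_simp; ring :
            1 * D.D ⟨y, hy⟩ + -(D.D ⟨y, hy⟩ * (δ.D ⟨y, hy⟩)⁻¹) * δ.D ⟨y, hy⟩ = 0)
        · refine (TV.comb_D _ _ _ _ _).trans ?_
          have e : δ.D ⟨x l, hl⟩ = 0 := h2 l hl hφl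
          have e' : D.D ⟨x l, hl⟩ = 0 := hD' l hl (fun h => hne (by rw [h])) hφl
          exact (by rw [e, e']; ring :
            1 * D.D ⟨x l, hl⟩ + -(D.D ⟨y, hy⟩ * (δ.D ⟨y, hy⟩)⁻¹) * δ.D ⟨x l, hl⟩ = 0)
    · refine ⟨D, hD, ?_⟩
      rintro (_ | l) hl hne hφl
      · exact absurd hφl hφy
      · exact hD' l hl (fun h => hne (by rw [h])) hφl

end tv

section mono

variable {k K : Type u} [Field k] [Field K] [Algebra k K] {R0 R : Subalgebra k K}
    {T I : Type} [Fintype I]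

/-- Integral powers. -/
lemma zpow_mem_of {A : Subalgebra k K} {y : K} (h : y ∈ A) {n : ℤ} (hn : 0 ≤ n ∨ y⁻¹ ∈ A) :
    y ^ n ∈ A := by
  rcases le_or_gt 0 n with h0 | h0
  · obtain ⟨m, rfl⟩ := Int.eq_ofNat_of_zero_le h0
    rw [zpow_natCast]
    exact A.pow_mem h m
  · have h1 : y⁻¹ ∈ A := hn.resolve_left (by omega)
    obtain ⟨m, hm⟩ := Int.eq_ofNat_of_zero_le (show 0 ≤ -n by omega)
    have h2 : n = -(m : ℤ) := by omega
    rw [h2, zpow_neg, zpow_natCast, ← inv_pow]
    exact A.pow_mem h1 m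

/-- The relation underlying comparability. -/
def Le (M : LM R0 R T I) (t : T) (γ γ' : I → ℤ) : Prop :=
  ∀ i, γ i ≤ γ' i ∨ (M.x t i)⁻¹ ∈ M.A t

lemma Le.trans' {M : LM R0 R T I} {t : T} {γ γ' γ'' : I → ℤ} (h : Le M t γ γ')
    (h' : Le M t γ' γ'') : Le M t γ γ'' := by
  intro i
  rcases h i with h1 | h1
  · rcases h' i with h2 | h2
    · exact Or.inl (h1.trans h2)
    · exact Or.inr h2
  · exact Or.inr h1

lemma exists_min {ι : Type} [Finite ι] [Nonempty ι] (M : LM R0 R T I) (t : T) (Γ : ι → I → ℤ)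
    (h : ∀ a b, Cmp M Γ a b) : ∃ a, ∀ b, Le M t (Γ a) (Γ b) := by
  classical
  have : Fintype ι := Fintype.ofFinite ι
  have key : ∀ s : Finset ι, s.Nonempty → ∃ a, ∀ b ∈ s, Le M t (Γ a) (Γ b) := by
    intro s hs
    induction hs using Finset.Nonempty.cons_induction with
    | singleton a => exact ⟨a, fun b hb => by rw [Finset.mem_singleton.1 hb]; exact fun i => Or.inl le_rfl⟩
    | cons a s ha hs ih =>
      obtain ⟨c, hc⟩ := ih
      rcases h a c t with h1 | h1
      · refine ⟨a, fun b hb => ?_⟩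
        rcases Finset.mem_cons.1 hb with rfl | hb
        · exact fun i => Or.inl le_rfl
        · exact Le.trans' h1 (hc b hb)
      · refine ⟨c, fun b hb => ?_⟩
        rcases Finset.mem_cons.1 hb with rfl | hb
        · exact h1
        · exact hc b hb
  obtain ⟨a, ha⟩ := key Finset.univ Finset.univ_nonempty
  exact ⟨a, fun b => ha b (Finset.mem_univ b)⟩

lemma prod_mem_of_le (M : LM R0 R T I) (t : T) (γ γ' : I → ℤ) (h : Le M t γ γ') :
    ∏ i, M.x t i ^ (γ' i - γ i) ∈ M.A t := by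
  refine (M.A t).prod_mem fun i _ => zpow_mem_of (M.xA t i) ?_
  exact (h i).imp_left fun h1 => by omega

lemma prod_sub (M : LM R0 R T I) (t : T) (γ γ' : I → ℤ) :
    (∏ i, M.x t i ^ γ' i) = (∏ i, M.x t i ^ (γ' i - γ i)) * ∏ i, M.x t i ^ γ i := by
  rw [← Finset.prod_mul_distrib]
  refine Finset.prod_congr rfl fun i _ => ?_
  rw [← zpow_add₀ (M.x0 t i)]
  congr 1
  ring

lemma prod_ne (M : LM R0 R T I) (t : T) (γ : I → ℤ) : (∏ i, M.x t i ^ γ i) ≠ 0 :=
  Finset.prod_ne_zero_iff.2 fun i _ => zpow_ne_zero _ (M.x0 t i)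

lemma div_mem_of_le {ι : Type} (M : LM R0 R T I) (t : T) (m : ι → K) (Γ : ι → I → ℤ)
    (hF : Fn M m Γ) {a b : ι} (h : Le M t (Γ a) (Γ b)) : m b / m a ∈ M.A t := by
  obtain ⟨w, hw0, hw, hw', h1⟩ := hF a t
  obtain ⟨v, hv0, hv, hv', h2⟩ := hF b t
  have : m b / m a = v * w⁻¹ * ∏ i, M.x t i ^ (Γ b i - Γ a i) := by
    rw [h1, h2, prod_sub M t (Γ a) (Γ b)]
    have := prod_ne M t (Γ a)
    field_simp
  rw [this]
  exact (M.A t).mul_mem ((M.A t).mul_mem hv hw') (prod_mem_of_le M t _ _ h)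

lemma Fn.ne {ι : Type} [Nonempty T] {M : LM R0 R T I} {m : ι → K} {Γ : ι → I → ℤ}
    (hF : Fn M m Γ) (a : ι) : m a ≠ 0 := by
  obtain ⟨t⟩ := ‹Nonempty T›
  obtain ⟨w, hw0, hw, hw', h1⟩ := hF a t
  rw [h1]
  exact mul_ne_zero hw0 (prod_ne M t _)

lemma nonempty_T (M : LM R0 R T I) : Nonempty T := by
  obtain ⟨t, -⟩ := M.cv ⊤ (fun _ _ => trivial)
  exact ⟨t⟩

end mono

section add

variable {k K : Type u} [Field k] [Field K] [Algebra k K] {R0 R : Subalgebra k K}
    {T I : Type} [Fintype I] {ι : Type} [Fintype ι] [Nonempty ι]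

/-- The data for adding the divisor of a sum `f` of functions `c i * m i`. -/
structure AddData (M : LM R0 R T I) (m : ι → K) (Γ : ι → I → ℤ) (c : ι → k) (f : K) : Prop where
  fn : Fn M m Γ
  cmp : ∀ a b, Cmp M Γ a b
  c0 : ∀ i, c i ≠ 0
  hf : f = ∑ i, c i • m i
  f0 : f ≠ 0
  sep : ∀ i, ∃ (D : Derivation k K K) (l : k), LD M D ∧ D (m i) = (l + 1) • m i ∧
    ∀ j, j ≠ i → D (m j) = l • m j

variable {M : LM R0 R T I} {m : ι → K} {Γ : ι → I → ℤ} {c : ι → k} {f : K}

/-- Adding the divisor of a function. -/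
theorem exists_add (h : AddData M m Γ c f) : ∃ (i0 : T → ι) (M' : LM R0 R T (Option I)),
    (∀ t b, Le M t (Γ (i0 t)) (Γ b)) ∧ M'.A = M.A ∧ M'.H = M.H ∧
      ∀ t, M'.x t = fun o : Option I => o.elim (f / m (i0 t)) (M.x t) := by
  classical
  have hT := nonempty_T M
  choose i0 hi0 using fun t => exists_min M t Γ h.cmp
  have hm0 : ∀ i, m i ≠ 0 := h.fn.ne
  have hmem : ∀ t i, m i / m (i0 t) ∈ M.A t := fun t i =>
    div_mem_of_le M t m Γ h.fn (hi0 t i)
  have hfeq : ∀ t, f / m (i0 t) = ∑ i, c i • (m i / m (i0 t)) := by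
    intro t
    rw [h.hf, Finset.sum_div]
    exact Finset.sum_congr rfl fun i _ => by rw [smul_div_assoc]
  have hfA : ∀ t, f / m (i0 t) ∈ M.A t := by
    intro t
    rw [hfeq]
    exact (M.A t).sum_mem fun i _ => (M.A t).smul_mem (hmem t i) _
  refine ⟨i0, { A := M.A, H := M.H, x := fun t o => o.elim (f / m (i0 t)) (M.x t), sm := M.sm,
                base := M.base, H0 := M.H0, HR := M.HR, rt := M.rt, gl := M.gl, dn := M.dn,
                cv := M.cv, xA := ?_, x0 := ?_, gi := ?_, snc := ?_ }, hi0, rfl, rfl,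
                fun t => rfl⟩
  · rintro t (_ | i)
    · exact hfA t
    · exact M.xA t i
  · rintro t (_ | i)
    · exact div_ne_zero h.f0 (hm0 _)
    · exact M.x0 t i
  · rintro t t' (_ | i)
    · obtain ⟨n, hn⟩ := M.gl t t' _ (hmem t' (i0 t))
      refine ⟨n, ?_⟩
      have : f / m (i0 t') / (f / m (i0 t)) = m (i0 t) / m (i0 t') := by
        have h1 := h.f0
        have h2 := hm0 (i0 t)
        have h3 := hm0 (i0 t')
        field_simp
      change (M.H t' / M.H t) ^ n * (f / m (i0 t') / (f / m (i0 t))) ∈ M.A t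
      rw [this]
      exact hn
    · exact M.gi t t' i
  · intro t
    refine SNC.add (M.snc t) (hfA t) ?_
    intro κ _ _ φ hφ
    -- some log derivation does not kill `f`
    by_contra hcon
    push Not at hcon
    have key : ∀ i, i ≠ i0 t → φ ⟨m i / m (i0 t), hmem t i⟩ = 0 := by
      intro i hi
      obtain ⟨D, l, hD, h1, h2⟩ := h.sep i
      let δ := TV.ofDer D (hD.dA t) φ
      have hDf : D (f / m (i0 t)) = c i • (m i / m (i0 t)) := by
        rw [hfeq, map_sum, Finset.sum_eq_single i]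
        · rw [Derivation.map_smul]
          congr 1
          have h3 := h2 (i0 t) (Ne.symm hi)
          rw [div_eq_mul_inv, Derivation.leibniz, Derivation.leibniz_inv, h1, h3]
          have h4 := hm0 (i0 t)
          simp only [smul_eq_mul, Algebra.smul_def]
          rw [map_add, map_one]
          field_simp
          ring
        · intro j _ hj
          rw [Derivation.map_smul, div_eq_mul_inv, Derivation.leibniz, Derivation.leibniz_inv,
            h2 j hj, h2 (i0 t) (Ne.symm hi)]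
          have h4 := hm0 (i0 t)
          simp only [smul_eq_mul, Algebra.smul_def]
          field_simp
          ring
        · intro h; exact absurd (Finset.mem_univ i) h
      by_contra hne
      have h5 : δ.D ⟨f / m (i0 t), hfA t⟩ ≠ 0 := by
        change φ ⟨D (f / m (i0 t)), _⟩ ≠ 0
        have e : (⟨D (f / m (i0 t)), hD.dA t _ (hfA t)⟩ : M.A t) =
            c i • ⟨m i / m (i0 t), hmem t i⟩ := Subtype.ext hDf
        rw [e, map_smul]
        exact smul_ne_zero (h.c0 i) hne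
      obtain ⟨l, hl, h6, h7⟩ := hcon δ h5
      apply h7
      change φ ⟨D (M.x t l), _⟩ = 0
      have e : (⟨D (M.x t l), hD.dA t _ (M.xA t l)⟩ : M.A t) =
          ⟨D (M.x t l) / M.x t l, hD.dx t l⟩ * ⟨M.x t l, hl⟩ := by
        apply Subtype.ext
        change D (M.x t l) = D (M.x t l) / M.x t l * M.x t l
        rw [div_mul_cancel₀ _ (M.x0 t l)]
      rw [e, map_mul, h6, mul_zero]
    have h8 : φ ⟨f / m (i0 t), hfA t⟩ = algebraMap k κ (c (i0 t)) := by
      have e : (⟨f / m (i0 t), hfA t⟩ : M.A t) = ∑ i, c i • ⟨m i / m (i0 t), hmem t i⟩ := by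
        apply Subtype.ext
        refine (hfeq t).trans ?_
        simp
      rw [e, map_sum, Finset.sum_eq_single (i0 t)]
      · rw [map_smul]
        have e2 : (⟨m (i0 t) / m (i0 t), hmem t (i0 t)⟩ : M.A t) = 1 :=
          Subtype.ext (div_self (hm0 _))
        rw [e2, map_one, Algebra.algebraMap_eq_smul_one]
      · intro i _ hi
        rw [map_smul, key i hi, smul_zero]
      · intro h; exact absurd (Finset.mem_univ _) h
    rw [hφ] at h8
    exact h.c0 (i0 t) ((map_eq_zero _).1 h8.symm)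

end add

end Pool.Agent.W558
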