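import Pool.Agent.W558.Add

set_option autoImplicit false
set_option linter.unusedVariables false
set_option linter.unusedSimpArgs false
set_option linter.unusedSectionVars false

universe u v

open Polynomial

namespace Pool.Agent.W558

section add

variable {k K : Type u} [Field k] [Field K] [Algebra k K] {R0 R : Subalgebra k K}
    {T I : Type} [Fintype I] {ι : Type} [Fintype ι] [Nonempty ι]
    {M : LM R0 R T I} {m : ι → K} {Γ : ι → I → ℤ} {c : ι → k} {f : K}

/-- The exponents of the sum. -/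
noncomputable def addγ (Γ : ι → I → ℤ) : Option I → ℤ
  | none => 1
  | some l => Finset.univ.inf' Finset.univ_nonempty fun a => Γ a l

/-- The exponents of a function after adding a divisor. -/
def ext0 (γ : I → ℤ) : Option I → ℤ
  | none => 0
  | some l => γ l

lemma Fn.comp {G G' : Type} {g : G → K} {Γ : G → I → ℤ} (h : Fn M g Γ) (s : G' → G) :
    Fn M (g ∘ s) (Γ ∘ s) := fun a t => h (s a) t

lemma fn_ext0 {G : Type} {g : G → K} {Γ : G → I → ℤ} (h : Fn M g Γ) (M' : LM R0 R T (Option I))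
    (hA : M'.A = M.A) (y : T → K) (hx : ∀ t, M'.x t = fun o : Option I => o.elim (y t) (M.x t)) :
    Fn M' g (fun a => ext0 (Γ a)) := by
  intro a t
  obtain ⟨w, h0, h1, h2, h3⟩ := h a t
  rw [hA]
  refine ⟨w, h0, h1, h2, ?_⟩
  rw [Fintype.prod_option, hx]
  simp only [Option.elim, ext0, zpow_zero, one_mul]
  exact h3

lemma fn_add (h : AddData M m Γ c f) (i0 : T → ι) (M' : LM R0 R T (Option I))
    (hi0 : ∀ t b, Le M t (Γ (i0 t)) (Γ b)) (hA : M'.A = M.A)
    (hx : ∀ t, M'.x t = fun o : Option I => o.elim (f / m (i0 t)) (M.x t)) :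
    Fn M' (fun _ : Unit => f) (fun _ => addγ Γ) := by
  have hT := nonempty_T M
  rintro - t
  obtain ⟨w, h0, h1, h2, h3⟩ := h.fn (i0 t) t
  -- the ratio of the monomial and the common divisor is a unit
  let γ : I → ℤ := fun l => Finset.univ.inf' Finset.univ_nonempty fun a => Γ a l
  have hγ : ∀ l, γ l ≤ Γ (i0 t) l := fun l => Finset.inf'_le _ (Finset.mem_univ _)
  have hγ' : ∀ l, γ l = Γ (i0 t) l ∨ (M.x t l)⁻¹ ∈ M.A t := by
    intro l
    obtain ⟨a, -, ha⟩ := Finset.exists_mem_eq_inf' (Finset.univ_nonempty (α := ι)) fun a => Γ a l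
    rcases hi0 t a l with h4 | h4
    · left
      refine le_antisymm (hγ l) ?_
      change Γ (i0 t) l ≤ Finset.univ.inf' _ _
      rw [ha]
      exact h4
    · exact Or.inr h4
  let v : K := ∏ l, M.x t l ^ (Γ (i0 t) l - γ l)
  have hv0 : v ≠ 0 := prod_ne M t _
  have hv : v ∈ M.A t := (M.A t).prod_mem fun l _ => zpow_mem_of (M.xA t l)
    (Or.inl (by have := hγ l; omega))
  have hv' : v⁻¹ ∈ M.A t := by
    have e : v⁻¹ = ∏ l, M.x t l ^ (γ l - Γ (i0 t) l) := by
      rw [← Finset.prod_inv_distrib]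
      refine Finset.prod_congr rfl fun l _ => ?_
      rw [← zpow_neg]
      congr 1
      ring
    rw [e]
    refine (M.A t).prod_mem fun l _ => zpow_mem_of (M.xA t l) ?_
    exact (hγ' l).imp_left fun h => by omega
  rw [hA]
  refine ⟨w * v, mul_ne_zero h0 hv0, (M.A t).mul_mem h1 hv, ?_, ?_⟩
  · rw [mul_inv]
    exact (M.A t).mul_mem h2 hv'
  · rw [Fintype.prod_option, hx]
    change f = w * v * ((f / m (i0 t)) ^ (1 : ℤ) * ∏ l, M.x t l ^ γ l)
    rw [zpow_one]
    have h5 : m (i0 t) = w * v * ∏ l, M.x t l ^ γ l := by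
      rw [h3, prod_sub M t γ (Γ (i0 t)), mul_assoc]
    have h6 := h.fn.ne (i0 t)
    rw [show w * v * (f / m (i0 t) * ∏ l, M.x t l ^ γ l) =
      f / m (i0 t) * (w * v * ∏ l, M.x t l ^ γ l) by ring, ← h5]
    field_simp

lemma ld_add (h : AddData M m Γ c f) (i0 : T → ι) (M' : LM R0 R T (Option I))
    (hA : M'.A = M.A)
    (hx : ∀ t, M'.x t = fun o : Option I => o.elim (f / m (i0 t)) (M.x t))
    (D : Derivation k K K) (hD : LD M D) {χ : k} (hf : D f = χ • f) {χm : ι → k}
    (hm : ∀ i, D (m i) = χm i • m i) : LD M' D where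
  dA := by rw [hA]; exact hD.dA
  dx := by
    have hT := nonempty_T M
    rw [hA]
    rintro t (_ | i)
    · rw [hx]
      change D (f / m (i0 t)) / (f / m (i0 t)) ∈ M.A t
      have h1 := h.f0
      have h2 := h.fn.ne (i0 t)
      rw [logD_div D h1 h2, hf, hm]
      have e : χ • f / f - χm (i0 t) • m (i0 t) / m (i0 t) = algebraMap k K (χ - χm (i0 t)) := by
        rw [Algebra.smul_def, Algebra.smul_def, map_sub]
        field_simp
      rw [e]
      exact (M.A t).algebraMap_mem _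
    · rw [hx]
      exact hD.dx t i

/-- Powers of `F` times a log monomial are regular. -/
lemma Bd.exists_mul_mem {F : K} (hF : Bd M F) {G : Type} {g : G → K} {Γ : G → I → ℤ}
    (h : Fn M g Γ) (a : G) (t : T) : (∃ n : ℕ, F ^ n * g a ∈ M.A t) ∧
      ∃ n : ℕ, F ^ n / g a ∈ M.A t := by
  obtain ⟨w, h0, h1, h2, h3⟩ := h a t
  have hFA : ∀ n : ℕ, F ^ n ∈ M.A t := fun n => (M.A t).pow_mem (M.base t hF.FR0) n
  have key : ∀ (s : Finset I) (γ : I → ℤ), ∃ n : ℕ, F ^ n * ∏ l ∈ s, M.x t l ^ γ l ∈ M.A t := by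
    intro s γ
    classical
    induction s using Finset.induction_on with
    | empty => exact ⟨0, by simp⟩
    | insert l s hl ih =>
      obtain ⟨n, hn⟩ := ih
      rw [Finset.prod_insert hl]
      rcases le_or_gt 0 (γ l) with h | h
      · refine ⟨n, ?_⟩
        rw [mul_left_comm]
        exact (M.A t).mul_mem (zpow_mem_of (M.xA t l) (Or.inl h)) hn
      · obtain ⟨m, hm⟩ := hF.Fx t l
        obtain ⟨e, he⟩ := Int.eq_ofNat_of_zero_le (show 0 ≤ - γ l by omega)
        refine ⟨m * e + n, ?_⟩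
        have h5 : F ^ (m * e + n) * (M.x t l ^ γ l * ∏ l ∈ s, M.x t l ^ γ l) =
            (F ^ m / M.x t l) ^ e * (F ^ n * ∏ l ∈ s, M.x t l ^ γ l) := by
          rw [show γ l = -(e : ℤ) by omega, zpow_neg, zpow_natCast, pow_add, pow_mul, div_pow]
          field_simp
        rw [h5]
        exact (M.A t).mul_mem ((M.A t).pow_mem hm e) hn
  constructor
  · obtain ⟨n, hn⟩ := key Finset.univ (Γ a)
    refine ⟨n, ?_⟩
    rw [h3, mul_left_comm]
    exact (M.A t).mul_mem h1 hn
  · obtain ⟨n, hn⟩ := key Finset.univ (fun l => - Γ a l)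
    refine ⟨n, ?_⟩
    have h5 : F ^ n / g a = w⁻¹ * (F ^ n * ∏ l, M.x t l ^ (- Γ a l)) := by
      have e : ∏ l, M.x t l ^ (- Γ a l) = (∏ l, M.x t l ^ Γ a l)⁻¹ := by
        rw [← Finset.prod_inv_distrib]
        exact Finset.prod_congr rfl fun l _ => zpow_neg _ _
      rw [h3, e]
      have := prod_ne M t (Γ a)
      field_simp
    rw [h5]
    exact (M.A t).mul_mem h2 hn

lemma bd_add (h : AddData M m Γ c f) (i0 : T → ι) (M' : LM R0 R T (Option I))
    (hA : M'.A = M.A) (hH : M'.H = M.H)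
    (hx : ∀ t, M'.x t = fun o : Option I => o.elim (f / m (i0 t)) (M.x t))
    {F : K} (hF : Bd M F) (hfR : f ∈ R) (hfR0 : f ∈ R0) : Bd M' (F * f) where
  F0 := mul_ne_zero hF.F0 h.f0
  FR := R.mul_mem hF.FR hfR
  FR0 := R0.mul_mem hF.FR0 hfR0
  dF := by
    rw [hA]
    intro t a ha
    obtain ⟨n, hn⟩ := hF.dF t a ha
    refine ⟨n, ?_⟩
    rw [mul_pow, mul_right_comm]
    exact R.mul_mem hn (R.pow_mem hfR n)
  Fx := by
    rw [hA]
    rintro t (_ | i)
    · obtain ⟨n, hn⟩ := (hF.exists_mul_mem h.fn (i0 t) t).1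
      refine ⟨n + 1, ?_⟩
      rw [hx]
      change (F * f) ^ (n + 1) / (f / m (i0 t)) ∈ M.A t
      have hT := nonempty_T M
      have h1 := h.f0
      have h2 := h.fn.ne (i0 t)
      have e : (F * f) ^ (n + 1) / (f / m (i0 t)) = F ^ n * m (i0 t) * (F * f ^ n) := by
        rw [mul_pow]
        field_simp
        ring
      rw [e]
      exact (M.A t).mul_mem hn ((M.A t).mul_mem (M.base t hF.FR0)
        ((M.A t).pow_mem (M.base t hfR0) n))
    · obtain ⟨n, hn⟩ := hF.Fx t i
      refine ⟨n, ?_⟩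
      rw [hx]
      change (F * f) ^ n / M.x t i ∈ M.A t
      rw [mul_pow, mul_div_right_comm]
      exact (M.A t).mul_mem hn ((M.A t).pow_mem (M.base t hfR0) n)
  FH := by
    rw [hA, hH]
    intro t
    obtain ⟨n, hn⟩ := hF.FH t
    refine ⟨n, ?_⟩
    rw [mul_pow, mul_div_right_comm]
    exact (M.A t).mul_mem hn ((M.A t).pow_mem (M.base t hfR0) n)

end add

section stage

variable {k K : Type u} [Field k] [Field K] [Algebra k K]

/-- There is a model on which the functions `g b` are monomials and the derivations in `Ds` are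
logarithmic and which is an isomorphism outside the divisor of the product of the `g b`. -/
def Stage (R0 R : Subalgebra k K) {G : Type} [Fintype G] (g : G → K)
    (Ds : Set (Derivation k K K)) : Prop :=
  ∃ (T I : Type) (_ : Finite T) (_ : Fintype I) (_ : DecidableEq I) (M : LM R0 R T I)
    (Γ : G → I → ℤ), Fn M g Γ ∧ (∀ D ∈ Ds, LD M D) ∧ Bd M (∏ b, g b)

lemma prod_zpow_sum {x : K} (h : x ≠ 0) {G : Type} (s : Finset G) (f : G → ℤ) :
    ∏ i ∈ s, x ^ f i = x ^ ∑ i ∈ s, f i := by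
  classical
  induction s using Finset.induction_on with
  | empty => simp
  | insert b s hb ih => rw [Finset.prod_insert hb, Finset.sum_insert hb, zpow_add₀ h, ih]

/-- The exponents of monomials in the functions `g b`. -/
lemma fn_mono {R0 R : Subalgebra k K} {T I : Type} [Fintype I] {M : LM R0 R T I} {G : Type}
    [Fintype G] {g : G → K} {Γ : G → I → ℤ} (h : Fn M g Γ) {ι : Type} (e : ι → G → ℤ) :
    Fn M (fun i => ∏ b, g b ^ e i b) (fun i l => ∑ b, e i b * Γ b l) := by
  intro i t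
  choose w h0 h1 h2 h3 using fun b => h b t
  refine ⟨∏ b, w b ^ e i b, Finset.prod_ne_zero_iff.2 fun b _ => zpow_ne_zero _ (h0 b),
    (M.A t).prod_mem fun b _ => zpow_mem_of (h1 b) (Or.inr (h2 b)), ?_, ?_⟩
  · rw [← Finset.prod_inv_distrib]
    refine (M.A t).prod_mem fun b _ => ?_
    rw [← zpow_neg]
    exact zpow_mem_of (h1 b) (Or.inr (h2 b))
  · have e1 : ∀ b, g b ^ e i b = w b ^ e i b * ∏ l, M.x t l ^ (e i b * Γ b l) := by
      intro b
      conv_lhs => rw [h3 b, mul_zpow]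
      congr 1
      rw [← Finset.prod_zpow]
      refine Finset.prod_congr rfl fun l _ => ?_
      rw [← zpow_mul, mul_comm]
    refine (Finset.prod_congr rfl fun b _ => e1 b).trans ?_
    rw [Finset.prod_mul_distrib, Finset.prod_comm]
    congr 1
    refine Finset.prod_congr rfl fun l _ => ?_
    exact prod_zpow_sum (M.x0 t l) _ _

/-- The weights of monomials. -/
lemma der_mono (D : Derivation k K K) {G : Type} (s : Finset G) (g : G → K) (hg : ∀ b, g b ≠ 0)
    (χ : G → k) (h : ∀ b, D (g b) = χ b • g b) (e : G → ℤ) :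
    D (∏ b ∈ s, g b ^ e b) = (∑ b ∈ s, (e b : k) * χ b) • ∏ b ∈ s, g b ^ e b := by
  classical
  induction s using Finset.induction_on with
  | empty => simp
  | insert b s hb ih =>
    rw [Finset.prod_insert hb, Finset.sum_insert hb, Derivation.leibniz, ih,
      Derivation.leibniz_zpow, h b]
    have h1 : e b • g b ^ (e b - 1) • χ b • g b = ((e b : k) * χ b) • g b ^ e b := by
      rw [zpow_sub_one₀ (hg b)]
      rw [zsmul_eq_mul]
      simp only [smul_eq_mul, Algebra.smul_def, map_mul, map_intCast]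
      have := hg b
      field_simp
    rw [h1]
    simp only [smul_eq_mul, Algebra.smul_def, map_add]
    ring

theorem Stage.add {R0 R : Subalgebra k K} {G : Type} [Fintype G] {g : G → K}
    {Ds : Set (Derivation k K K)} (hst : Stage R0 R g Ds) {ι : Type} [Fintype ι] [Nonempty ι]
    (e : ι → G → ℤ) (c : ι → k) (f : K) (hc : ∀ i, c i ≠ 0)
    (hf : f = ∑ i, c i • ∏ b, g b ^ e i b) (hf0 : f ≠ 0) (hfR : f ∈ R) (hfR0 : f ∈ R0)
    (hχ : ∀ D ∈ Ds, ∀ b, ∃ χ : k, D (g b) = χ • g b)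
    (sep : ∀ i, ∃ D ∈ Ds, ∃ l : k, D (∏ b, g b ^ e i b) = (l + 1) • ∏ b, g b ^ e i b ∧
      ∀ j, j ≠ i → D (∏ b, g b ^ e j b) = l • ∏ b, g b ^ e j b) :
    Stage R0 R (fun o : Option G => o.elim f g) {D ∈ Ds | ∃ χ : k, D f = χ • f} := by
  classical
  obtain ⟨T, I, i1, i2, i3, M, Γ, hFn, hLD, hBd⟩ := hst
  have hT := nonempty_T M
  have hg0 : ∀ b, g b ≠ 0 := hFn.ne
  let m : ι → K := fun i => ∏ b, g b ^ e i b
  let g' : G ⊕ ι → K := Sum.elim g m
  let Γ' : G ⊕ ι → I → ℤ := Sum.elim Γ fun i l => ∑ b, e i b * Γ b l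
  have hFn' : Fn M g' Γ' := by
    rintro (b | i)
    · exact hFn b
    · exact fn_mono hFn e i
  obtain ⟨T1, I1, j1, j2, j3, M1, Γ1, hE, hC⟩ := princ_all g' M Γ'
  have hFn1 := hE.fn hFn'
  have hAD : AddData M1 m (Γ1 ∘ Sum.inr) c f :=
    { fn := hFn1.comp Sum.inr
      cmp := fun a b => hC _ _
      c0 := hc
      hf := hf
      f0 := hf0
      sep := fun i => by
        obtain ⟨D, hD, l, h1, h2⟩ := sep i
        exact ⟨D, l, hE.ld D (hLD D hD), h1, h2⟩ }
  obtain ⟨i0, M2, hi0, hA, hH, hx⟩ := exists_add hAD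
  refine ⟨T1, Option I1, j1, inferInstance, inferInstance, M2,
    fun o => o.elim (addγ (Γ1 ∘ Sum.inr)) fun b => ext0 (Γ1 (Sum.inl b)), ?_, ?_, ?_⟩
  · rintro (_ | b)
    · exact fn_add hAD i0 M2 hi0 hA hx ()
    · exact fn_ext0 (hFn1.comp Sum.inl) M2 hA _ hx b
  · rintro D ⟨hD, χ, hDf⟩
    choose χg hχg using hχ D hD
    exact ld_add hAD i0 M2 hA hx D (hE.ld D (hLD D hD)) hDf
      (fun i => der_mono D Finset.univ g hg0 χg hχg (e i))
  · have h1 : ∏ o : Option G, (fun o : Option G => o.elim f g) o = (∏ b, g b) * f := by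
      rw [Fintype.prod_option, mul_comm]
      rfl
    rw [h1]
    exact bd_add hAD i0 M2 hA hH hx (hE.bd _ hBd) hfR hfR0

end stage

end Pool.Agent.W558
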