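import Pool.Agent.W558.Adj

set_option autoImplicit false
set_option linter.unusedVariables false
set_option linter.unusedSimpArgs false

universe u v

open Polynomial

namespace Pool.Agent.W558

section snc

variable {k K : Type u} [Field k] [Field K] [Algebra k K]

/-- The value of a point at an element of `K` contained in the subalgebra. -/
def ap {κ : Type u} [Field κ] [Algebra k κ] {A : Subalgebra k K} (φ : A →ₐ[k] κ) {a : K}
    (h : a ∈ A) : κ := φ ⟨a, h⟩

/-- The elements `x i` of `A` have simple normal crossings: at each point the differentials of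
the `x i` which vanish there are linearly independent. -/
def SNC (A : Subalgebra k K) {I : Type} (x : I → K) : Prop :=
  ∀ (κ : Type u) [Field κ] [Algebra k κ] (φ : A →ₐ[k] κ) (i : I) (hi : x i ∈ A),
    φ ⟨x i, hi⟩ = 0 → ∃ D : TV φ, D.D ⟨x i, hi⟩ = 1 ∧
      ∀ (j : I) (hj : x j ∈ A), j ≠ i → φ ⟨x j, hj⟩ = 0 → D.D ⟨x j, hj⟩ = 0

lemma SNC.trans {A : Subalgebra k K} {I : Type} {x : I → K} (h : SNC A x) {i j : I}
    (hij : i ≠ j) (hi : x i ∈ A) (hj : x j ∈ A) :
    Trans A (⟨x i, hi⟩ : A) ⟨x j, hj⟩ where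
  y1 := by
    intro κ _ _ φ hφ
    obtain ⟨D, hD, -⟩ := h κ φ j hj hφ
    exact ⟨D, by rw [hD]; exact one_ne_zero⟩
  xy := by
    intro κ _ _ φ hφi hφj
    obtain ⟨D, hD, hD'⟩ := h κ φ i hi hφi
    exact ⟨D, hD, hD' j hj hij.symm hφj⟩

/-- The divisors on the chart of the blowup of the intersection of the divisors `i` and `j` where
the divisor `j` generates the exceptional divisor. -/
noncomputable def bx {I : Type} [DecidableEq I] (x : I → K) (i j : I) : Option I → K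
  | none => x j
  | some l => if l = i then x i / x j else if l = j then 1 else x l

/-- Blowups of strata preserve simple normal crossings. -/
theorem SNC.blow {A : Subalgebra k K} [Algebra.Smooth k A] {I : Type} [DecidableEq I]
    {x : I → K} (h : SNC A x) (hx : ∀ i, x i ∈ A) (hx0 : ∀ i, x i ≠ 0) {i j : I} (hij : i ≠ j) :
    SNC (adj A (x i / x j)) (bx x i j) := by
  have ht : Trans A (⟨x i, hx i⟩ : A) ⟨x j, hx j⟩ := h.trans hij _ _
  have hy0 : ((⟨x j, hx j⟩ : A) : K) ≠ 0 := hx0 j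
  intro κ _ _ φ o ho hφo
  let φ0 : A →ₐ[k] κ := φ.comp (Subalgebra.inclusion (le_adj A (x i / x j)))
  have hφ0 : ∀ a : A, φ ⟨a, le_adj A _ a.2⟩ = φ0 a := fun a => rfl
  have hφ0' : ∀ (a : K) (ha : a ∈ A) (ha' : a ∈ adj A (x i / x j)), φ ⟨a, ha'⟩ = φ0 ⟨a, ha⟩ :=
    fun a ha ha' => rfl
  have hv : x i / x j ∈ adj A (x i / x j) := self_mem_adj A _
  have hrel : φ0 ⟨x j, hx j⟩ * φ ⟨x i / x j, hv⟩ = φ0 ⟨x i, hx i⟩ := by
    rw [← hφ0, ← hφ0, ← map_mul]
    congr 1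
    apply Subtype.ext
    change x j * (x i / x j) = x i
    have := hx0 j
    field_simp
  -- it suffices to find tangent vectors of `A`
  have key : ∀ (D : TV φ0) (c : κ), φ0 ⟨x j, hx j⟩ * c + φ ⟨x i / x j, hv⟩ * D.D ⟨x j, hx j⟩ =
      D.D ⟨x i, hx i⟩ → ∃ E : TV φ, (∀ (a : K) (ha : a ∈ A) (ha' : a ∈ adj A (x i / x j)),
        E.D ⟨a, ha'⟩ = D.D ⟨a, ha⟩) ∧ ∀ hv', E.D ⟨x i / x j, hv'⟩ = c := by
    intro D c hc
    obtain ⟨E, hE1, hE2⟩ := TV.ext_adj hy0 ht φ φ0 hφ0 D c hc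
    exact ⟨E, fun a ha ha' => hE1 ⟨a, ha⟩, fun _ => hE2⟩
  have E1 : ∀ (E : TV φ) (h1 : (1 : K) ∈ adj A (x i / x j)), E.D ⟨1, h1⟩ = 0 := fun E _ => E.D_one
  have φ1 : ∀ (h1 : (1 : K) ∈ adj A (x i / x j)), φ ⟨1, h1⟩ ≠ 0 := by
    intro h1 h0
    have : φ 1 = 0 := h0
    rw [map_one] at this
    exact one_ne_zero this
  by_cases hY : φ0 ⟨x j, hx j⟩ = 0
  · have hX : φ0 ⟨x i, hx i⟩ = 0 := by rw [← hrel, hY, zero_mul]
    cases o with
    | none =>
      obtain ⟨Dj, hDj, hDj'⟩ := h κ φ0 j (hx j) hY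
      obtain ⟨Di, hDi, hDi'⟩ := h κ φ0 i (hx i) hX
      obtain ⟨E, hE1, hE2⟩ := key (TV.comb 1 (φ ⟨x i / x j, hv⟩) Dj Di) 0 (by
        rw [TV.comb_D, TV.comb_D, hDj, hDi, hDj' i (hx i) hij hX, hDi' j (hx j) hij.symm hY]
        ring)
      refine ⟨E, ?_, ?_⟩
      · refine (hE1 (x j) (hx j) ho).trans ?_
        rw [TV.comb_D, hDj, hDi' j (hx j) hij.symm hY]
        ring
      · rintro (_ | l) hl hne hφl
        · exact absurd rfl hne
        · simp only [bx] at hl hφl ⊢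
          split_ifs at hl hφl ⊢ with h1 h2
          · exact hE2 _
          · exact E1 _ _
          · rw [hE1 _ (hx l), TV.comb_D, hDj' l (hx l) h2 ((hφ0' _ _ _).symm.trans hφl),
              hDi' l (hx l) h1 ((hφ0' _ _ _).symm.trans hφl)]
            ring
    | some m =>
      simp only [bx] at ho hφo ⊢
      split_ifs at ho hφo ⊢ with h1 h2
      · obtain ⟨E, hE1, hE2⟩ := key (TV.zero φ0) 1 (by simp [hY])
        refine ⟨E, hE2 _, ?_⟩
        rintro (_ | l) hl hne hφl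
        · exact (hE1 _ (hx j) _).trans (TV.zero_D _)
        · simp only [bx] at hl hφl ⊢
          split_ifs at hl hφl ⊢ with h3 h4
          · exact absurd (by rw [h3, h1]) hne
          · exact E1 _ _
          · exact (hE1 _ (hx l) _).trans (TV.zero_D _)
      · exact absurd hφo (φ1 _)
      · obtain ⟨D, hD, hD'⟩ := h κ φ0 m (hx m) ((hφ0' _ _ _).symm.trans hφo)
        obtain ⟨E, hE1, hE2⟩ := key D 0 (by
          rw [hD' j (hx j) (Ne.symm h2) hY, hD' i (hx i) (Ne.symm h1) hX]; ring)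
        refine ⟨E, (hE1 _ (hx m) _).trans hD, ?_⟩
        rintro (_ | l) hl hne hφl
        · exact (hE1 _ (hx j) _).trans (hD' j (hx j) (Ne.symm h2) hY)
        · simp only [bx] at hl hφl ⊢
          split_ifs at hl hφl ⊢ with h3 h4
          · exact hE2 _
          · exact E1 _ _
          · refine (hE1 _ (hx l) _).trans (hD' l (hx l) ?_ ((hφ0' _ _ _).symm.trans hφl))
            intro h5
            exact hne (by rw [h5])
  · cases o with
    | none => exact absurd hφo hY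
    | some m =>
      simp only [bx] at ho hφo ⊢
      split_ifs at ho hφo ⊢ with h1 h2
      · have hX : φ0 ⟨x i, hx i⟩ = 0 := by rw [← hrel, hφo, mul_zero]
        obtain ⟨D, hD, hD'⟩ := h κ φ0 i (hx i) hX
        obtain ⟨E, hE1, hE2⟩ := key (TV.comb (φ0 ⟨x j, hx j⟩) 0 D D) 1 (by
          rw [TV.comb_D, TV.comb_D, hφo, hD]; ring)
        refine ⟨E, hE2 _, ?_⟩
        rintro (_ | l) hl hne hφl
        · exact absurd hφl hY
        · simp only [bx] at hl hφl ⊢
          split_ifs at hl hφl ⊢ with h3 h4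
          · exact absurd (by rw [h3, h1]) hne
          · exact E1 _ _
          · rw [hE1 _ (hx l), TV.comb_D, hD' l (hx l) h3 ((hφ0' _ _ _).symm.trans hφl)]
            ring
      · exact absurd hφo (φ1 _)
      · obtain ⟨D, hD, hD'⟩ := h κ φ0 m (hx m) ((hφ0' _ _ _).symm.trans hφo)
        obtain ⟨E, hE1, hE2⟩ := key D ((D.D ⟨x i, hx i⟩ - φ ⟨x i / x j, hv⟩ * D.D ⟨x j, hx j⟩) /
          φ0 ⟨x j, hx j⟩) (by field_simp; ring)
        refine ⟨E, (hE1 _ (hx m) _).trans hD, ?_⟩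
        rintro (_ | l) hl hne hφl
        · exact absurd hφl hY
        · simp only [bx] at hl hφl ⊢
          split_ifs at hl hφl ⊢ with h3 h4
          · have hX : φ0 ⟨x i, hx i⟩ = 0 := by rw [← hrel, hφl, mul_zero]
            rw [hE2, hD' i (hx i) (Ne.symm h1) hX, hφl]
            ring
          · exact E1 _ _
          · refine (hE1 _ (hx l) _).trans (hD' l (hx l) ?_ ((hφ0' _ _ _).symm.trans hφl))
            intro h5
            exact hne (by rw [h5])

end snc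

section loc

variable {k K : Type u} [Field k] [Field K] [Algebra k K]

lemma mem_adj_inv {A : Subalgebra k K} {h : K} (hh : h ∈ A) (h0 : h ≠ 0) {f : K} :
    f ∈ adj A h⁻¹ ↔ ∃ n : ℕ, f * h ^ n ∈ A := by
  constructor
  · intro hf
    refine adj_induction A h⁻¹ (p := fun f => ∃ n : ℕ, f * h ^ n ∈ A) ?_ ?_ ?_ f hf
    · intro a ha
      exact ⟨0, by simpa using ha⟩
    · rintro a b ⟨n, hn⟩ ⟨m, hm⟩
      refine ⟨n + m, ?_⟩
      have : (a + b) * h ^ (n + m) = a * h ^ n * h ^ m + b * h ^ m * h ^ n := by ring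
      rw [this]
      exact A.add_mem (A.mul_mem hn (A.pow_mem hh m)) (A.mul_mem hm (A.pow_mem hh n))
    · rintro a ⟨n, hn⟩
      refine ⟨n + 1, ?_⟩
      have : a * h⁻¹ * h ^ (n + 1) = a * h ^ n := by
        rw [pow_succ']
        field_simp
      rw [this]
      exact hn
  · rintro ⟨n, hn⟩
    have : f = f * h ^ n * h⁻¹ ^ n := by
      rw [mul_assoc, ← mul_pow, mul_inv_cancel₀ h0, one_pow, mul_one]
    rw [this]
    exact (adj A h⁻¹).mul_mem (le_adj _ _ hn) ((adj A h⁻¹).pow_mem (self_mem_adj _ _) n)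

/-- The localization is a localization. -/
lemma isLocalization_adj {A : Subalgebra k K} {h : K} (hh : h ∈ A) (h0 : h ≠ 0) :
    letI := (Subalgebra.inclusion (le_adj A h⁻¹)).toRingHom.toAlgebra
    IsLocalization.Away (⟨h, hh⟩ : A) (adj A h⁻¹) := by
  let _ := (Subalgebra.inclusion (le_adj A h⁻¹)).toRingHom.toAlgebra
  refine IsLocalization.Away.mk _ ?_ ?_ ?_
  · refine IsUnit.of_mul_eq_one ⟨h⁻¹, self_mem_adj A _⟩ ?_
    apply Subtype.ext
    change h * h⁻¹ = 1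
    exact mul_inv_cancel₀ h0
  · rintro ⟨f, hf⟩
    obtain ⟨n, hn⟩ := (mem_adj_inv hh h0).1 hf
    exact ⟨n, ⟨_, hn⟩, Subtype.ext rfl⟩
  · intro a b hab
    refine ⟨0, ?_⟩
    have h1 : (a : K) = b :=
      congrArg (Subtype.val : adj A h⁻¹ → K) hab
    rw [Subtype.ext h1]

theorem smooth_adj_inv {A : Subalgebra k K} [Algebra.Smooth k A] {h : K} (hh : h ∈ A)
    (h0 : h ≠ 0) : Algebra.Smooth k (adj A h⁻¹) := by
  let _ : Algebra A (adj A h⁻¹) := (Subalgebra.inclusion (le_adj A h⁻¹)).toRingHom.toAlgebra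
  have : IsScalarTower k A (adj A h⁻¹) := IsScalarTower.of_algebraMap_eq fun r => rfl
  have hloc : IsLocalization.Away (⟨h, hh⟩ : A) (adj A h⁻¹) := isLocalization_adj hh h0
  have := Algebra.Smooth.of_isLocalization_Away (R := A) (A := adj A h⁻¹) ⟨h, hh⟩
  exact Algebra.Smooth.comp k A (adj A h⁻¹)

theorem TV.ext_loc {A : Subalgebra k K} {h : K} (hh : h ∈ A) (h0 : h ≠ 0) {κ : Type u} [Field κ]
    [Algebra k κ] (φ : adj A h⁻¹ →ₐ[k] κ) (φ0 : A →ₐ[k] κ)
    (hφ0 : ∀ a : A, φ ⟨a, le_adj A _ a.2⟩ = φ0 a) (D : TV φ0) :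
    ∃ E : TV φ, ∀ (a : K) (ha : a ∈ A) (ha' : a ∈ adj A h⁻¹), E.D ⟨a, ha'⟩ = D.D ⟨a, ha⟩ := by
  let _ : Algebra A (adj A h⁻¹) := (Subalgebra.inclusion (le_adj A h⁻¹)).toRingHom.toAlgebra
  have : IsScalarTower k A (adj A h⁻¹) := IsScalarTower.of_algebraMap_eq fun r => rfl
  have hloc : IsLocalization.Away (⟨h, hh⟩ : A) (adj A h⁻¹) := isLocalization_adj hh h0
  have hφh : φ0 ⟨h, hh⟩ ≠ 0 := by
    intro h1
    have h2 : φ ⟨h, le_adj A _ hh⟩ * φ ⟨h⁻¹, self_mem_adj A _⟩ = 1 := by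
      rw [← map_mul, ← map_one φ]
      congr 1
      exact Subtype.ext (mul_inv_cancel₀ h0)
    rw [hφ0 ⟨h, hh⟩, h1, zero_mul] at h2
    exact zero_ne_one h2
  have hu : IsUnit (D.dual.toRingHom ⟨h, hh⟩) := by
    have : D.dual.toRingHom ⟨h, hh⟩ = D.dual ⟨h, hh⟩ := rfl
    rw [this, TrivSqZeroExt.isUnit_iff_isUnit_fst, TV.dual_fst, isUnit_iff_ne_zero]
    exact hφh
  let ψ : adj A h⁻¹ →+* TrivSqZeroExt κ κ := IsLocalization.Away.lift (⟨h, hh⟩ : A) hu
  have hψ : ∀ a : A, ψ (algebraMap A (adj A h⁻¹) a) = D.dual a := fun a =>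
    IsLocalization.Away.lift_eq _ hu a
  let ψ' : adj A h⁻¹ →ₐ[k] TrivSqZeroExt κ κ :=
    { ψ with
      commutes' := by
        intro r
        change ψ (algebraMap k _ r) = _
        rw [IsScalarTower.algebraMap_apply k A (adj A h⁻¹), hψ]
        exact D.dual.commutes r }
  have hfst : ∀ a, (ψ' a).fst = φ a := by
    have h1 : (TrivSqZeroExt.fstHom k κ κ).toRingHom.comp ψ = φ.toRingHom := by
      apply IsLocalization.ringHom_ext (Submonoid.powers (⟨h, hh⟩ : A))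
      apply RingHom.ext
      intro a
      change (ψ (algebraMap A _ a)).fst = φ (algebraMap A _ a)
      rw [hψ, TV.dual_fst]
      exact (hφ0 a).symm
    intro a
    exact congrArg (fun f : adj A h⁻¹ →+* κ => f a) h1
  refine ⟨TV.ofDual φ ψ' hfst, ?_⟩
  intro a ha ha'
  change (ψ (algebraMap A _ ⟨a, ha⟩)).snd = _
  rw [hψ, TV.dual_snd]

/-- Localizations preserve simple normal crossings. -/
theorem SNC.loc {A : Subalgebra k K} {I : Type} {x : I → K} (hS : SNC A x)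
    (hx : ∀ i, x i ∈ A) {h : K} (hh : h ∈ A) (h0 : h ≠ 0) : SNC (adj A h⁻¹) x := by
  intro κ _ _ φ i hi hφi
  let φ0 : A →ₐ[k] κ := φ.comp (Subalgebra.inclusion (le_adj A h⁻¹))
  have hφ0 : ∀ a : A, φ ⟨a, le_adj A _ a.2⟩ = φ0 a := fun a => rfl
  obtain ⟨D, hD, hD'⟩ := hS κ φ0 i (hx i) hφi
  obtain ⟨E, hE⟩ := TV.ext_loc hh h0 φ φ0 hφ0 D
  refine ⟨E, (hE _ _ _).trans hD, ?_⟩
  intro j hj hne hφj
  exact (hE _ (hx j) _).trans (hD' j (hx j) hne hφj)

end loc

end Pool.Agent.W558
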