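import Mathlib

set_option autoImplicit false

universe u v

namespace Pool.Agent.W558

/-- A tangent vector at a point `φ : A → κ`. -/
structure TV {k A κ : Type u} [Field k] [CommRing A] [Algebra k A] [Field κ] [Algebra k κ]
    (φ : A →ₐ[k] κ) where
  /-- the underlying linear map -/
  D : A →ₗ[k] κ
  leib : ∀ a b, D (a * b) = φ a * D b + φ b * D a

namespace TV

variable {k A κ : Type u} [Field k] [CommRing A] [Algebra k A] [Field κ] [Algebra k κ]
    {φ : A →ₐ[k] κ}

lemma D_one (D : TV φ) : D.D 1 = 0 := by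
  have h := D.leib 1 1
  rw [mul_one, map_one φ, one_mul] at h
  have : D.D 1 + D.D 1 = D.D 1 + 0 := by rw [add_zero]; exact h.symm
  exact add_left_cancel this

lemma D_algebraMap (D : TV φ) (c : k) : D.D (algebraMap k A c) = 0 := by
  rw [Algebra.algebraMap_eq_smul_one, map_smul, D_one, smul_zero]

/-- Linear combinations. -/
def comb (c d : κ) (D E : TV φ) : TV φ where
  D := { toFun := fun a => c * D.D a + d * E.D a
         map_add' := by intro a b; simp only [map_add]; ring
         map_smul' := by
          intro r a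
          simp only [map_smul, RingHom.id_apply, mul_smul_comm, smul_add] }
  leib := by
    intro a b
    change c * D.D (a * b) + d * E.D (a * b) = φ a * (c * D.D b + d * E.D b) +
      φ b * (c * D.D a + d * E.D a)
    rw [D.leib, E.leib]; ring

@[simp] lemma comb_D (c d : κ) (D E : TV φ) (a : A) :
    (comb c d D E).D a = c * D.D a + d * E.D a := rfl

/-- The zero tangent vector. -/
def zero (φ : A →ₐ[k] κ) : TV φ where
  D := 0
  leib := by intro a b; simp

@[simp] lemma zero_D (a : A) : (zero φ).D a = 0 := rfl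

/-- The associated point with values in the dual numbers. -/
noncomputable def dual (D : TV φ) : A →ₐ[k] TrivSqZeroExt κ κ where
  toFun a := TrivSqZeroExt.inl (φ a) + TrivSqZeroExt.inr (D.D a)
  map_one' := by
    rw [map_one, D_one, TrivSqZeroExt.inr_zero, add_zero, TrivSqZeroExt.inl_one]
  map_mul' a b := by
    ext
    · simp
    · simp [D.leib]
      ring
  map_zero' := by simp
  map_add' a b := by
    ext
    · simp
    · simp
  commutes' c := by
    rw [D_algebraMap, AlgHom.commutes]
    simp
    rfl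

@[simp] lemma dual_fst (D : TV φ) (a : A) : (D.dual a).fst = φ a := by
  change (TrivSqZeroExt.inl (φ a) + TrivSqZeroExt.inr (D.D a)).fst = _
  simp

@[simp] lemma dual_snd (D : TV φ) (a : A) : (D.dual a).snd = D.D a := by
  change (TrivSqZeroExt.inl (φ a) + TrivSqZeroExt.inr (D.D a)).snd = _
  simp

/-- The tangent vector of a point with values in the dual numbers. -/
noncomputable def ofDual (φ : A →ₐ[k] κ) (ψ : A →ₐ[k] TrivSqZeroExt κ κ)
    (h : ∀ a, (ψ a).fst = φ a) : TV φ where
  D := { toFun := fun a => (ψ a).snd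
         map_add' := by intro a b; simp
         map_smul' := by intro r a; simp }
  leib := by
    intro a b
    change (ψ (a * b)).snd = φ a * (ψ b).snd + φ b * (ψ a).snd
    rw [map_mul, TrivSqZeroExt.snd_mul, h, h]
    simp [mul_comm]

@[simp] lemma ofDual_D (φ : A →ₐ[k] κ) (ψ : A →ₐ[k] TrivSqZeroExt κ κ)
    (h : ∀ a, (ψ a).fst = φ a) (a : A) : (ofDual φ ψ h).D a = (ψ a).snd := rfl

/-- Restriction of tangent vectors. -/
def restr {B : Type u} [CommRing B] [Algebra k B] (j : B →ₐ[k] A) (D : TV φ) :
    TV (φ.comp j) where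
  D := D.D ∘ₗ j.toLinearMap
  leib := by
    intro a b
    change D.D (j (a * b)) = φ (j a) * D.D (j b) + φ (j b) * D.D (j a)
    rw [map_mul, D.leib]

@[simp] lemma restr_D {B : Type u} [CommRing B] [Algebra k B] (j : B →ₐ[k] A) (D : TV φ) (b : B) :
    (D.restr j).D b = D.D (j b) := rfl

/-- Change of the point along an equality. -/
def cast {φ' : A →ₐ[k] κ} (h : ∀ a, φ a = φ' a) (D : TV φ) : TV φ' where
  D := D.D
  leib := by intro a b; rw [← h, ← h]; exact D.leib a b

@[simp] lemma cast_D {φ' : A →ₐ[k] κ} (h : ∀ a, φ a = φ' a) (D : TV φ) (a : A) :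
    (D.cast h).D a = D.D a := rfl

/-- Extension to polynomials. -/
noncomputable def poly (D : TV φ) (φ' : Polynomial A →ₐ[k] κ)
    (h : ∀ a, φ' (Polynomial.C a) = φ a) (c : κ) : TV φ' := by
  let ψ : Polynomial A →+* TrivSqZeroExt κ κ :=
    Polynomial.eval₂RingHom (D.dual : A →+* TrivSqZeroExt κ κ)
      (TrivSqZeroExt.inl (φ' Polynomial.X) + TrivSqZeroExt.inr c)
  let ψ' : Polynomial A →ₐ[k] TrivSqZeroExt κ κ :=
    { ψ with
      commutes' := by
        intro r
        change ψ (Polynomial.C (algebraMap k A r)) = _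
        change Polynomial.eval₂ _ _ _ = _
        rw [Polynomial.eval₂_C]
        exact D.dual.commutes r }
  refine ofDual φ' ψ' ?_
  intro P
  have h1 : (TrivSqZeroExt.fstHom k κ κ).toRingHom.comp (ψ : Polynomial A →+* _) =
      (φ' : Polynomial A →+* κ) := by
    apply Polynomial.ringHom_ext
    · intro a
      change (Polynomial.eval₂ _ _ _ : TrivSqZeroExt κ κ).fst = φ' _
      rw [Polynomial.eval₂_C, h]
      exact dual_fst D a
    · change (Polynomial.eval₂ _ _ _ : TrivSqZeroExt κ κ).fst = φ' _
      rw [Polynomial.eval₂_X]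
      simp
  exact congrArg (fun f : Polynomial A →+* κ => f P) h1

lemma poly_C (D : TV φ) (φ' : Polynomial A →ₐ[k] κ)
    (h : ∀ a, φ' (Polynomial.C a) = φ a) (c : κ) (a : A) :
    (D.poly φ' h c).D (Polynomial.C a) = D.D a := by
  change (Polynomial.eval₂ _ _ _ : TrivSqZeroExt κ κ).snd = _
  rw [Polynomial.eval₂_C]
  exact dual_snd D a

lemma poly_X (D : TV φ) (φ' : Polynomial A →ₐ[k] κ)
    (h : ∀ a, φ' (Polynomial.C a) = φ a) (c : κ) :
    (D.poly φ' h c).D Polynomial.X = c := by
  change (Polynomial.eval₂ _ _ _ : TrivSqZeroExt κ κ).snd = _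
  rw [Polynomial.eval₂_X]
  simp

/-- Descent of a tangent vector along a surjection. -/
theorem desc {B : Type u} [CommRing B] [Algebra k B] (π : A →ₐ[k] B)
    (hπ : Function.Surjective π) (φ' : B →ₐ[k] κ) (h : ∀ a, φ' (π a) = φ a) (D : TV φ)
    (hD : ∀ a, π a = 0 → D.D a = 0) : ∃ E : TV φ', ∀ a, E.D (π a) = D.D a := by
  choose s hs using hπ
  have key : ∀ a b, π a = π b → D.D a = D.D b := by
    intro a b hab
    have := hD (a - b) (by rw [map_sub, hab, sub_self])
    rw [map_sub] at this
    exact sub_eq_zero.1 this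
  refine ⟨⟨{ toFun := fun b => D.D (s b), map_add' := ?_, map_smul' := ?_ }, ?_⟩, ?_⟩
  · intro a b
    rw [← map_add]
    exact key _ _ (by rw [map_add, hs, hs, hs])
  · intro r b
    rw [RingHom.id_apply, ← map_smul]
    exact key _ _ (by rw [map_smul, hs, hs])
  · intro a b
    change D.D (s (a * b)) = φ' a * D.D (s b) + φ' b * D.D (s a)
    rw [key (s (a * b)) (s a * s b) (by rw [map_mul, hs, hs, hs]), D.leib, ← h, ← h, hs, hs]
  · intro a
    exact key _ _ (hs _)

/-- A tangent vector kills the ideal generated by an element of the kernel killed by it. -/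
lemma span_singleton (D : TV φ) {f : A} (h0 : φ f = 0) (h1 : D.D f = 0) {a : A}
    (ha : a ∈ Ideal.span {f}) : D.D a = 0 := by
  obtain ⟨b, rfl⟩ := Ideal.mem_span_singleton.1 ha
  rw [D.leib, h0, h1, zero_mul, mul_zero, add_zero]

end TV

section smooth

variable {k A : Type u} [Field k] [CommRing A] [Algebra k A]

/-- If there is a derivation with `δ f ≡ 1` modulo `f` then `A / f` is formally smooth. -/
theorem formallySmooth_quot_of_der [Algebra.FormallySmooth k A] (f : A) (δ : Derivation k A A)
    (hδ : δ f - 1 ∈ Ideal.span {f}) : Algebra.FormallySmooth k (A ⧸ Ideal.span {f}) := by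
  let I : Ideal A := Ideal.span {f}
  let π : A →ₐ[k] A ⧸ I := Ideal.Quotient.mkₐ k I
  have hker : RingHom.ker π.toRingHom = I := Ideal.mk_ker
  let q : A →ₐ[k] A ⧸ RingHom.ker π.toRingHom ^ 2 := Ideal.Quotient.mkₐ k _
  have hfI : f ∈ RingHom.ker π.toRingHom := by
    rw [hker]; exact Ideal.mem_span_singleton_self f
  have hff : ∀ a, q (f * f * a) = 0 := by
    intro a
    apply Ideal.Quotient.eq_zero_iff_mem.2
    rw [pow_two]
    exact Ideal.mul_mem_right _ _ (Ideal.mul_mem_mul hfI hfI)
  let h : A →ₐ[k] A ⧸ RingHom.ker π.toRingHom ^ 2 :=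
    { toFun := fun a => q (a - f * δ a)
      map_one' := by rw [Derivation.map_one_eq_zero, mul_zero, sub_zero, map_one]
      map_zero' := by rw [map_zero, mul_zero, sub_zero, map_zero]
      map_add' := by intro a b; rw [← map_add, map_add]; congr 1; ring
      map_mul' := by
        intro a b
        rw [← map_mul, Derivation.leibniz]
        have h1 : (a - f * δ a) * (b - f * δ b) =
          (a * b - f * (a • δ b + b • δ a)) + f * f * (δ a * δ b) := by
          simp only [smul_eq_mul]; ring
        rw [h1, map_add, hff, add_zero]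
      commutes' := by
        intro r
        rw [Derivation.map_algebraMap, mul_zero, sub_zero]
        rfl }
  have hhf : h f = 0 := by
    change q (f - f * δ f) = 0
    obtain ⟨a, ha⟩ := Ideal.mem_span_singleton.1 hδ
    have h1 : f - f * δ f = f * f * (-a) := by
      have : δ f = 1 + f * a := by rw [← ha]; ring
      rw [this]; ring
    rw [h1, hff]
  let g : (A ⧸ I) →ₐ[k] A ⧸ RingHom.ker π.toRingHom ^ 2 :=
    Ideal.Quotient.liftₐ I h (by
      intro a ha
      obtain ⟨b, rfl⟩ := Ideal.mem_span_singleton.1 ha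
      rw [map_mul, hhf, zero_mul])
  refine Algebra.FormallySmooth.of_split π g ?_
  apply AlgHom.ext
  intro x
  obtain ⟨a, rfl⟩ := Ideal.Quotient.mk_surjective x
  change π.kerSquareLift (h a) = _
  change π.kerSquareLift (q (a - f * δ a)) = _
  change π (a - f * δ a) = π a
  rw [map_sub, sub_eq_self, map_mul]
  have : π f = 0 := hfI
  rw [this, zero_mul]

/-- The Jacobian criterion for hypersurfaces. -/
theorem smooth_quot [Algebra.Smooth k A] (f : A)
    (hf : ∀ (κ : Type u) [Field κ] [Algebra k κ] (φ : A →ₐ[k] κ), φ f = 0 →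
      ∃ D : TV φ, D.D f ≠ 0) : Algebra.Smooth k (A ⧸ Ideal.span {f}) := by
  have hproj : Module.Projective A (Ω[A⁄k]) := inferInstance
  obtain ⟨s, hs⟩ := Module.projective_def.1 hproj
  let ω : Ω[A⁄k] := KaehlerDifferential.D k A f
  let ev : (Ω[A⁄k] →ₗ[A] A) →ₗ[A] A := LinearMap.applyₗ ω
  let J : Ideal A := LinearMap.range ev
  have hJ : J ⊔ Ideal.span {f} = ⊤ := by
    by_contra hne
    obtain ⟨m, hm, hle⟩ := Ideal.exists_le_maximal _ hne
    let _ : Field (A ⧸ m) := Ideal.Quotient.field m
    let φ : A →ₐ[k] A ⧸ m := Ideal.Quotient.mkₐ k m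
    have hφf : φ f = 0 := Ideal.Quotient.eq_zero_iff_mem.2
      (hle (Ideal.mem_sup_right (Ideal.mem_span_singleton_self f)))
    obtain ⟨D, hD⟩ := hf (A ⧸ m) φ hφf
    apply hD
    let D' : Derivation k A (A ⧸ m) :=
      { toFun := D.D
        map_add' := D.D.map_add
        map_smul' := D.D.map_smul
        map_one_eq_zero' := D.D_one
        leibniz' := by
          intro a b
          change D.D (a * b) = a • D.D b + b • D.D a
          rw [D.leib]
          rfl }
    have h1 : D.D f = D'.liftKaehlerDifferential ω := (D'.liftKaehlerDifferential_comp_D f).symm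
    rw [h1, ← hs ω, Finsupp.linearCombination_apply, Finsupp.sum, map_sum]
    refine Finset.sum_eq_zero fun x _ => ?_
    rw [map_smul]
    have h2 : s ω x ∈ m := by
      apply hle
      apply Ideal.mem_sup_left
      exact ⟨(Finsupp.lapply x) ∘ₗ s, rfl⟩
    have h3 : φ (s ω x) = 0 := Ideal.Quotient.eq_zero_iff_mem.2 h2
    change φ (s ω x) * _ = 0
    rw [h3, zero_mul]
  have h1 : (1 : A) ∈ J ⊔ Ideal.span {f} := by rw [hJ]; trivial
  obtain ⟨a, ⟨l, hl⟩, b, hb, hab⟩ := Submodule.mem_sup.1 h1
  have hfs : Algebra.FormallySmooth k (A ⧸ Ideal.span {f}) := by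
    refine formallySmooth_quot_of_der f (l.compDer (KaehlerDifferential.D k A)) ?_
    change l ω - 1 ∈ _
    have h2 : l ω = a := hl
    rw [h2, ← hab]
    have : a - (a + b) = -b := by ring
    rw [this]
    exact (Ideal.span {f}).neg_mem hb
  have hfp : Algebra.FinitePresentation k (A ⧸ Ideal.span {f}) :=
    Algebra.FinitePresentation.quotient (Submodule.fg_span_singleton f)
  exact ⟨hfs, hfp⟩

end smooth

end Pool.Agent.W558
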